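import Pool.Agent.H74.CP5

set_option autoImplicit false
open Matrix

namespace Pool.Agent.Results.MP_a20134_al.Irrational

/-- A rational matrix on the boundary of the 5x5 completely positive cone and in the interior of
the doubly nonnegative cone, with a square nonnegative factorization that has an irrational entry
and a column whose rank-one term has an irrational entry. -/
theorem result :
    ∃ A : Matrix (Fin 5) (Fin 5) ℝ,
      (∀ i j, ∃ q : ℚ, A i j = (q : ℝ)) ∧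
      A.PosDef ∧
      (∀ i j, 0 < A i j) ∧
      (∀ ε : ℝ, 0 < ε → ∃ S : Matrix (Fin 5) (Fin 5) ℝ, Sᵀ = S ∧
          (∀ i j, |S i j - A i j| < ε) ∧
          ¬ ∃ m : ℕ, ∃ C : Matrix (Fin 5) (Fin m) ℝ, (∀ i j, 0 ≤ C i j) ∧ S = C * Cᵀ) ∧
      ∃ B : Matrix (Fin 5) (Fin 5) ℝ, (∀ i j, 0 ≤ B i j) ∧ A = B * Bᵀ ∧
        (∃ i j : Fin 5, Irrational (B i j)) ∧
        (∃ j i l : Fin 5, Irrational (B i j * B l j)) := by
  open Pool.Agent.H74.CP5 in
  refine ⟨A, A_rat, A_posDef, A_pos, A_boundary, B, B_nonneg, A_eq, ⟨1, 0, ?_⟩, ⟨0, 0, 1, ?_⟩⟩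
  · simpa [Pool.Agent.H74.CP5.B, Pool.Agent.H74.CP5.Bm] using Pool.Agent.H74.CP5.sqrt5_irr
  · rintro ⟨r, hr⟩
    have h5 := Pool.Agent.H74.CP5.s5
    apply Pool.Agent.H74.CP5.sqrt5_irr
    refine ⟨2 * r - 5, ?_⟩
    simp [Pool.Agent.H74.CP5.B, Pool.Agent.H74.CP5.Bm] at hr
    push_cast
    nlinarith

end Pool.Agent.Results.MP_a20134_al.Irrational
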